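import Pool.Agent.H24.EulC

set_option autoImplicit false

namespace Pool.Agent.Results.MP_d5a48f_an.Stretch

open Real Set
open scoped ENNReal
open Pool.Agent.H24.Eul

/-- There is a solution of the 2D incompressible Euler equations on the torus with bounded `C¹` norm, whose
(globally existing) Lagrangian flow map stretches an injective curve of finite length exponentially in time. -/
theorem result :
    ∃ u v p : ℝ → ℝ → ℝ → ℝ, IsEuler u v p ∧ (∃ Φ : ℝ → ℂ → ℂ, IsFlow u v Φ) ∧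
      ∃ l : ℝ → ℂ, ContinuousOn l (Icc 0 1) ∧ InjOn l (Icc 0 1) ∧ eVariationOn l (Icc 0 1) < ⊤ ∧
        ∃ c γ : ℝ, 0 < c ∧ 0 < γ ∧ ∀ Φ : ℝ → ℂ → ℂ, IsFlow u v Φ → ∀ t : ℝ, 0 ≤ t →
          ENNReal.ofReal (c * exp (γ * t)) ≤ eVariationOn (fun s => Φ t (l s)) (Icc 0 1) := by
  refine ⟨uu, vv, pp, cellular, flow_exists, lc, lc_lip.continuous.continuousOn, lc_inj.injOn, ?_,
    exp (-1) / 48, 1 / 2, by positivity, by norm_num, fun Φ hΦ t ht => length_ge hΦ t ht⟩
  have h1 : eVariationOn (lc ∘ (id : ℝ → ℝ)) (Icc 0 1) ≤ (2 : NNReal) * eVariationOn (id : ℝ → ℝ) (Icc 0 1) :=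
    (lc_lip.lipschitzOnWith (s := Set.univ)).comp_eVariationOn_le (fun _ _ => trivial)
  have h2 : eVariationOn (id : ℝ → ℝ) (Icc 0 1) ≤ ENNReal.ofReal (1 - 0) := by
    have := (monotone_id.monotoneOn (Icc (0:ℝ) 1)).eVariationOn_le (left_mem_Icc.2 zero_le_one) (right_mem_Icc.2 zero_le_one)
    rwa [inter_self] at this
  refine lt_of_le_of_lt h1 (ENNReal.mul_lt_top ENNReal.coe_lt_top (lt_of_le_of_lt h2 ENNReal.ofReal_lt_top))

end Pool.Agent.Results.MP_d5a48f_an.Stretch
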